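import Pool.Agent.H15.CX.Cover
import Pool.Agent.H15.ER.Elem

/-!
# Bounds for the smoothability defect: statements of the rows
-/

open Module MvPolynomial

namespace Pool.Agent.H86.DB

open Pool.Agent.H12.Defect Pool.Agent.H15.Defect

universe u

/-! ### Part P: the partition bound -/

/-- jets -/
abbrev Jet (E : Type u) [CommRing E] (e : ℕ) : Type u :=
  PowerSeries E ⧸ Ideal.span {(PowerSeries.X : PowerSeries E) ^ e}

/-- the class of the variable -/
noncomputable abbrev jX (E : Type u) [CommRing E] (e : ℕ) : Jet E e :=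
  Ideal.Quotient.mk _ PowerSeries.X

/-- Degenerations along jets (`H15/CX/Dual.lean` is the case `e = 2`). -/
def T_JET : Prop :=
  ∀ (k : Type u) [Field k] (E G : Type u) [CommRing E] [Algebra k E] [CommRing G] [Algebra k G]
    (N e : ℕ), Dle k E N → ∀ (S : Subalgebra k (Jet E e)) (h : jX E e ∈ S) (ψ : S →ₐ[k] G),
      Function.Surjective ψ → ψ ⟨jX E e, h⟩ = 0 → Dle k G N

/-- The integration lemma. -/
def T_INT : Prop :=
  ∀ (k : Type u) [Field k] (A : Type u) [CommRing A] [Algebra k A] (A₁ : Subalgebra k A) (x : A)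
    (N₁ N₂ : ℕ), IsNilpotent x → (∀ a : A, ∃ b ∈ A₁, ∃ c : A, a = b + x * c) →
    Dle k A₁ N₁ → Dle k (A ⧸ (Ideal.span {x}).annihilator) N₂ → Dle k A (N₁ + N₂)

/-- The recursion of the partition bound. -/
def IsPB (E : ℕ → ℕ → ℕ) : Prop :=
  (∀ m d, 1 ≤ d → 1 ≤ E m d) ∧ (∀ m m' d d', 1 ≤ d → m ≤ m' → d ≤ d' → E m d ≤ E m' d') ∧
    ∀ m d, 1 ≤ m → m + 1 ≤ d → E (m - 1) (d - 1) + E m (d - m) ≤ E m d

/-- A solution below the number of partitions. -/
def T_PE : Prop := ∃ E : ℕ → ℕ → ℕ, IsPB E ∧ ∀ m d, E m d ≤ Fintype.card (Nat.Partition d)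

/-- The number of partitions is superadditive. -/
def T_SUPA : Prop := ∀ a b : ℕ, 1 ≤ a → 1 ≤ b →
  Fintype.card (Nat.Partition a) + Fintype.card (Nat.Partition b) ≤
    Fintype.card (Nat.Partition (a + b))

/-- A minimal system of generators: `A / xA` has dimension at least the number of generators. -/
def T_MIN : Prop :=
  ∀ (k : Type u) [Field k] (A : Type u) [CommRing A] [Algebra k A] [Module.Finite k A]
    (α : A →ₐ[k] k) (c m : ℕ) (x : Fin (m + 1) → A), RingHom.ker α ^ c = ⊥ → (∀ i, α (x i) = 0) →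
    Algebra.adjoin k (Set.range x) = ⊤ →
    (∀ y : Fin m → A, (∀ i, α (y i) = 0) → Algebra.adjoin k (Set.range y) ≠ ⊤) →
    m + 1 ≤ finrank k (A ⧸ Ideal.span {x (Fin.last m)})

/-- Local algebras with `m` generators. -/
def T_REC : Prop :=
  ∀ (E : ℕ → ℕ → ℕ), IsPB E → ∀ (k : Type u) [Field k] (A : Type u) [CommRing A] [Algebra k A]
    [Module.Finite k A] (α : A →ₐ[k] k) (c m : ℕ) (x : Fin m → A), RingHom.ker α ^ c = ⊥ →
    (∀ i, α (x i) = 0) → Algebra.adjoin k (Set.range x) = ⊤ → Dle k A (E m (finrank k A))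

/-- The partition bound. -/
def T_PALL : Prop :=
  ∀ (k : Type u) [Field k] [IsAlgClosed k] (A : Type u) [CommRing A] [Algebra k A]
    [Module.Finite k A], Dle k A (Fintype.card (Nat.Partition (finrank k A)))

/-! ### Part L: the linear bound -/

/-- Colength of the powers of an ideal. -/
def T_MON : Prop :=
  ∀ (k : Type u) [Field k] (m : ℕ) (I : Ideal (MvPolynomial (Fin m) k)) (n : ℕ),
    Module.Finite k (MvPolynomial (Fin m) k ⧸ I) →
    Module.Finite k (MvPolynomial (Fin m) k ⧸ I ^ n) ∧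
      finrank k (MvPolynomial (Fin m) k ⧸ I ^ n) ≤ n ^ m * finrank k (MvPolynomial (Fin m) k ⧸ I)

/-- Homogeneous ideals. -/
def IsHom {k : Type u} [Field k] {r : ℕ} (J : Ideal (MvPolynomial (Fin r) k)) : Prop :=
  ∀ p ∈ J, ∀ n, homogeneousComponent n p ∈ J

/-- linear forms -/
noncomputable def lin {k : Type u} [Field k] {r : ℕ} (c : Fin r → k) : MvPolynomial (Fin r) k :=
  ∑ i, C (c i) * X i

/-- Hilbert function of the quotient by `J` -/
noncomputable def Hf {k : Type u} [Field k] {r : ℕ} (J : Ideal (MvPolynomial (Fin r) k)) (n : ℕ) :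
    ℕ :=
  finrank k ((homogeneousSubmodule (Fin r) k n).map (Ideal.Quotient.mkₐ k J).toLinearMap)

/-- A linear form which is a nonzerodivisor in high degrees. -/
def T_STEP : Prop :=
  ∀ (k : Type u) [Field k] [Infinite k] (r : ℕ) (J : Ideal (MvPolynomial (Fin r) k)), IsHom J →
    ∃ (c : Fin r → k) (n₀ : ℕ), ∀ n ≥ n₀, ∀ p : MvPolynomial (Fin r) k, p.IsHomogeneous n →
      lin c * p ∈ J → p ∈ J

/-- The Hilbert function of a hyperplane section. -/
def T_CUT : Prop :=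
  ∀ (k : Type u) [Field k] (r : ℕ) (J : Ideal (MvPolynomial (Fin r) k)) (c : Fin r → k) (n : ℕ),
    IsHom J → (∀ p : MvPolynomial (Fin r) k, p.IsHomogeneous n → lin c * p ∈ J → p ∈ J) →
    IsHom (J ⊔ Ideal.span {lin c}) ∧
      Hf (J ⊔ Ideal.span {lin c}) (n + 1) + Hf J n ≤ Hf J (n + 1)

/-- Differences of functions of polynomial growth. -/
def T_DISC : Prop :=
  ∀ (m C : ℕ) (a : ℕ → ℕ → ℕ), (∀ j < m, ∃ n₀, ∀ n ≥ n₀, a (j + 1) (n + 1) + a j n ≤ a j (n + 1)) →
    (∀ n, ∑ i ∈ Finset.range n, a 0 i ≤ C * n ^ m) → ∀ n₀, ∃ n ≥ n₀, a m n = 0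

/-- Linear forms which cut down to finite length. -/
def T_GNN : Prop :=
  ∀ (k : Type u) [Field k] [Infinite k] (r : ℕ) (J : Ideal (MvPolynomial (Fin r) k)) (m C : ℕ),
    IsHom J → (∀ n, ∑ i ∈ Finset.range n, Hf J i ≤ C * n ^ m) →
    ∃ (c : Fin m → Fin r → k) (n : ℕ), ∀ p : MvPolynomial (Fin r) k, p.IsHomogeneous (n + 1) →
      p ∈ J ⊔ Ideal.span (Set.range fun j => lin (c j))

/-- Ideals of finite colength supported at the origin. -/
def AtO {k : Type u} [Field k] {m : ℕ} (I : Ideal (MvPolynomial (Fin m) k)) : Prop :=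
  ∃ s : ℕ, Ideal.span (Set.range (X : Fin m → MvPolynomial (Fin m) k)) ^ s ≤ I

/-- Reductions by `m` elements. -/
def T_RED : Prop :=
  ∀ (k : Type u) [Field k] [Infinite k] (m : ℕ) (I : Ideal (MvPolynomial (Fin m) k)), AtO I →
    ∃ (f : Fin m → MvPolynomial (Fin m) k) (N : ℕ), (∀ j, f j ∈ I) ∧
      I ^ (N + 1) ≤ Ideal.span (Set.range f) * I ^ N ⊔ I ^ (N + 2)

/-- `F j` has leading form `X j ^ R`. -/
def Lead {A : Type u} [CommRing A] {m : ℕ} (R : ℕ) (F : Fin m → MvPolynomial (Fin m) A) : Prop :=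
  ∀ j, (F j - X j ^ R).totalDegree < R

/-- A reduction with leading forms `X j ^ R`. -/
def T_PERT : Prop :=
  ∀ (k : Type u) [Field k] [Infinite k] (m : ℕ) (I : Ideal (MvPolynomial (Fin m) k)), AtO I →
    ∃ (f : Fin m → MvPolynomial (Fin m) k) (R N : ℕ), Lead R f ∧ (∀ j, f j ∈ I) ∧
      ∀ n M : ℕ, I ^ (N + n) ≤ Ideal.span (Set.range f) ^ n ⊔ I ^ M

/-- the monomials below the leading forms -/
noncomputable def mo (A : Type u) [CommRing A] {m R : ℕ} (α : Fin m → Fin R) :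
    MvPolynomial (Fin m) A := ∏ j, X j ^ (α j : ℕ)

/-- Newton products -/
noncomputable def nw {A : Type u} [CommRing A] {m : ℕ} (F : Fin m → MvPolynomial (Fin m) A)
    (c : Fin m → ℕ → A) (β : Fin m → ℕ) : MvPolynomial (Fin m) A :=
  ∏ j, ∏ i ∈ Finset.range (β j), (F j - C (c j i))

/-- The ideal of the Newton products of degree `n`. -/
noncomputable def NI {A : Type u} [CommRing A] {m : ℕ} (F : Fin m → MvPolynomial (Fin m) A)
    (c : Fin m → ℕ → A) (n : ℕ) : Ideal (MvPolynomial (Fin m) A) :=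
  Ideal.span {p | ∃ β : Fin m → ℕ, ∑ j, β j = n ∧ p = nw F c β}

/-- The products of monomials and Newton products form a basis. -/
def T_BAS : Prop :=
  ∀ (A : Type u) [CommRing A] [Nontrivial A] (m R : ℕ) (F : Fin m → MvPolynomial (Fin m) A)
    (c : Fin m → ℕ → A), Lead R F →
    LinearIndependent A (fun p : (Fin m → Fin R) × (Fin m → ℕ) => mo A p.1 * nw F c p.2) ∧
      Submodule.span A (Set.range fun p : (Fin m → Fin R) × (Fin m → ℕ) =>
        mo A p.1 * nw F c p.2) = ⊤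

/-- Exponents of degree at most `n`. -/
abbrev Ix (m R n : ℕ) : Type := (Fin m → Fin R) × {β : Fin m → Fin (n + 1) // ∑ j, (β j : ℕ) ≤ n}

/-- The quotient by the ideal of the Newton products. -/
def T_QB : Prop :=
  ∀ (A : Type u) [CommRing A] [Nontrivial A] (m R : ℕ) (F : Fin m → MvPolynomial (Fin m) A)
    (c : Fin m → ℕ → A) (n : ℕ), Lead R F →
    ∃ b : Basis (Ix m R n) A (MvPolynomial (Fin m) A ⧸ NI F c (n + 1)),
      ∀ p : Ix m R n, b p = Ideal.Quotient.mk (NI F c (n + 1))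
        (mo A p.1 * nw F c fun j => (p.2.1 j : ℕ))

/-- The number of exponents. -/
def T_CARD : Prop := ∀ m R n : ℕ, Fintype.card (Ix m R n) = R ^ m * (n + m).choose m

/-- A family over the line which is reduced at `1` is a smoothing at `0`. -/
def T_FAM : Prop :=
  ∀ (k : Type u) [Field k] [IsAlgClosed k] (𝒜 A₀ A₁ : Type u) [CommRing 𝒜]
    [Algebra (Polynomial k) 𝒜] [CommRing A₀] [Algebra k A₀] [CommRing A₁] [Algebra k A₁]
    (π₀ : 𝒜 →+* A₀) (π₁ : 𝒜 →+* A₁), Module.Finite (Polynomial k) 𝒜 →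
    Module.Free (Polynomial k) 𝒜 → Function.Surjective π₀ → Function.Surjective π₁ →
    RingHom.ker π₀ = Ideal.span {algebraMap (Polynomial k) 𝒜 Polynomial.X} →
    RingHom.ker π₁ = Ideal.span {algebraMap (Polynomial k) 𝒜 (Polynomial.X - 1)} →
    (∀ r : k, π₀ (algebraMap (Polynomial k) 𝒜 (Polynomial.C r)) = algebraMap k A₀ r) →
    (∀ r : k, π₁ (algebraMap (Polynomial k) 𝒜 (Polynomial.C r)) = algebraMap k A₁ r) →
    IsReduced A₁ → IsSmoothable k A₀

/-- The fibre of points. -/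
def T_PTS : Prop :=
  ∀ (k : Type u) [Field k] [IsAlgClosed k] (m R n : ℕ), 1 ≤ R → ∃ (a : Fin R → k) (c : ℕ → k),
    IsReduced (MvPolynomial (Fin m) k ⧸
      NI (fun j : Fin m => ∏ i, (X j - C (a i)) : Fin m → MvPolynomial (Fin m) k)
        (fun _ => c) (n + 1))

/-- Powers of complete intersections are smoothable. -/
def T_SMO : Prop :=
  ∀ (k : Type u) [Field k] [IsAlgClosed k] (m R : ℕ) (F : Fin m → MvPolynomial (Fin m) k) (n : ℕ),
    Lead R F → IsSmoothable k (MvPolynomial (Fin m) k ⧸ Ideal.span (Set.range F) ^ (n + 1)) ∧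
      finrank k (MvPolynomial (Fin m) k ⧸ Ideal.span (Set.range F) ^ (n + 1)) =
        R ^ m * (n + m).choose m

/-- Splitting off the component of an ideal. -/
def T_SPL : Prop :=
  ∀ (k : Type u) [Field k] (A : Type u) [CommRing A] [Algebra k A] (J : Ideal A),
    IsSmoothable k A → ∃ M₀ : ℕ, ∀ M ≥ M₀, IsSmoothable k (A ⧸ J ^ M) ∧
      ∃ K : Ideal A, finrank k A = finrank k (A ⧸ J ^ M) + finrank k (A ⧸ K) ∧
        ∀ Q : Ideal A, finrank k (A ⧸ Q) =
          finrank k (A ⧸ (J ^ M ⊔ Q)) + finrank k (A ⧸ (K ⊔ Q))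

/-- Dimension of a thickening. -/
def T_GEN : Prop :=
  ∀ (k : Type u) [Field k] (A : Type u) [CommRing A] [Algebra k A] [Module.Finite k A] (m n : ℕ)
    (y : Fin m → A), Ideal.span (Set.range y) ^ (n + 1) = ⊥ →
    finrank k A ≤ finrank k (A ⧸ Ideal.span (Set.range y)) * (n + m).choose m

/-- The local part of a complete intersection. -/
def T_LOC : Prop :=
  ∀ (k : Type u) [Field k] [IsAlgClosed k] (m R N : ℕ) (I : Ideal (MvPolynomial (Fin m) k))
    (f : Fin m → MvPolynomial (Fin m) k), Module.Finite k (MvPolynomial (Fin m) k ⧸ I) →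
    Lead R f → (∀ j, f j ∈ I) →
    (∀ n M : ℕ, I ^ (N + n) ≤ Ideal.span (Set.range f) ^ n ⊔ I ^ M) →
    ∃ e : ℕ, ∀ n : ℕ, Dle k (MvPolynomial (Fin m) k ⧸ I ^ (n + 1)) (e * (n + m).choose m) ∧
      e * (n + m).choose m ≤ finrank k (MvPolynomial (Fin m) k ⧸ I ^ (N + (n + 1)))

/-- Leading coefficients. -/
def T_LIM : Prop :=
  ∀ m e d N : ℕ, (∀ n, e * (n + m).choose m ≤ (N + (n + 1)) ^ m * d) → e ≤ m.factorial * d

/-- The bounds at the origin. -/
def T_L1 : Prop :=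
  ∀ (k : Type u) [Field k] [IsAlgClosed k] (m : ℕ) (I : Ideal (MvPolynomial (Fin m) k)), AtO I →
    ∃ e N : ℕ, e ≤ m.factorial * finrank k (MvPolynomial (Fin m) k ⧸ I) ∧
      ∀ n : ℕ, Dle k (MvPolynomial (Fin m) k ⧸ I ^ (n + 1)) (e * (n + m).choose m) ∧
        e * (n + m).choose m ≤ finrank k (MvPolynomial (Fin m) k ⧸ I ^ (N + (n + 1)))

/-- The linear bound. -/
def T_LALL : Prop :=
  ∀ (k : Type u) [Field k] [IsAlgClosed k] (m : ℕ) (A : Type u) [CommRing A] [Algebra k A]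
    [Module.Finite k A] (g : MvPolynomial (Fin m) k →ₐ[k] A), Function.Surjective g →
    Dle k A (m.factorial * finrank k A)

/-- Thickenings, all supports. -/
def T_THK : Prop :=
  ∀ (k : Type u) [Field k] [IsAlgClosed k] (m : ℕ) (I : Ideal (MvPolynomial (Fin m) k)),
    Module.Finite k (MvPolynomial (Fin m) k ⧸ I) → I ≠ ⊤ →
    ∃ e N : ℕ, 1 ≤ e ∧ ∀ n : ℕ,
      Dle k (MvPolynomial (Fin m) k ⧸ I ^ (n + 1)) (e * (n + m).choose m) ∧
        e * (n + m).choose m ≤ finrank k (MvPolynomial (Fin m) k ⧸ I ^ (N + (n + 1)))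

end Pool.Agent.H86.DB
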