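import Pool.Agent.H86.DB.Targets

/-!
# Row RED: reductions by `m` elements
-/

open Module MvPolynomial

namespace Pool.Agent.H86.DB

universe u

section red

variable {k : Type u} [Field k] {m r : ℕ}

/-- the ideal of the origin -/
noncomputable abbrev mm (k : Type u) [Field k] (m : ℕ) : Ideal (MvPolynomial (Fin m) k) :=
  Ideal.span (Set.range (X : Fin m → MvPolynomial (Fin m) k))

theorem sub_const_mem (p : MvPolynomial (Fin m) k) : p - C (constantCoeff p) ∈ mm k m := by
  induction p using MvPolynomial.induction_on with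
  | C a => simp
  | add p q hp hq =>
    have : p + q - C (constantCoeff (p + q)) = (p - C (constantCoeff p)) +
      (q - C (constantCoeff q)) := by rw [map_add, map_add]; ring
    rw [this]
    exact Ideal.add_mem _ hp hq
  | mul_X p i _ =>
    have : p * X i - C (constantCoeff (p * X i)) = p * X i := by simp
    rw [this]
    exact Ideal.mul_mem_left _ _ (Ideal.subset_span ⟨i, rfl⟩)

theorem finite_mm : Module.Finite k (MvPolynomial (Fin m) k ⧸ mm k m) := by
  refine Module.Finite.of_surjective (Algebra.linearMap k (MvPolynomial (Fin m) k ⧸ mm k m)) ?_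
  intro x
  obtain ⟨p, rfl⟩ := Ideal.Quotient.mk_surjective x
  refine ⟨constantCoeff p, ?_⟩
  have h := sub_const_mem p
  rw [← Ideal.Quotient.mk_eq_mk_iff_sub_mem] at h
  rw [h]
  rfl

theorem le_mm {I : Ideal (MvPolynomial (Fin m) k)} {s : ℕ} (h : mm k m ^ s ≤ I) (hI : I ≠ ⊤) :
    I ≤ mm k m := by
  intro p hp
  by_contra hcon
  have h0 : constantCoeff p ≠ 0 := by
    intro h0
    have h1 := sub_const_mem p
    rw [h0, map_zero, sub_zero] at h1
    exact hcon h1
  have h1 : I ⊔ mm k m = ⊤ := by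
    rw [Ideal.eq_top_iff_one]
    have h2 : C (constantCoeff p) ∈ I ⊔ mm k m := by
      have h3 : C (constantCoeff p) = p - (p - C (constantCoeff p)) := by ring
      rw [h3]
      exact Ideal.sub_mem _ (Ideal.mem_sup_left hp) (Ideal.mem_sup_right (sub_const_mem p))
    have h4 : (1 : MvPolynomial (Fin m) k) = C (constantCoeff p)⁻¹ * C (constantCoeff p) := by
      rw [← map_mul, inv_mul_cancel₀ h0, map_one]
    rw [h4]
    exact Ideal.mul_mem_left _ _ h2
  have h2 : I ⊔ mm k m ^ s = ⊤ := Ideal.sup_pow_eq_top h1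
  rw [sup_eq_left.mpr h] at h2
  exact hI h2

/-- substitution, with the degree as the exponent of the variable -/
noncomputable def Phi (g : Fin r → MvPolynomial (Fin m) k) :
    MvPolynomial (Fin r) k →ₐ[k] Polynomial (MvPolynomial (Fin m) k) :=
  aeval fun i => Polynomial.C (g i) * Polynomial.X

theorem Phi_hom (g : Fin r → MvPolynomial (Fin m) k) {P : MvPolynomial (Fin r) k} {n : ℕ}
    (hP : P.IsHomogeneous n) : Phi g P = Polynomial.C (aeval g P) * Polynomial.X ^ n := by
  unfold Phi
  conv_lhs => rw [P.as_sum]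
  conv_rhs => rw [P.as_sum]
  rw [map_sum, map_sum, map_sum, Finset.sum_mul]
  refine Finset.sum_congr rfl fun a ha => ?_
  have hd : ∑ i ∈ a.support, a i = n := by
    have := hP (mem_support_iff.mp ha)
    rw [Finsupp.weight_apply, Finsupp.sum] at this
    simpa using this
  rw [aeval_monomial, aeval_monomial, Finsupp.prod, Finsupp.prod]
  simp only [mul_pow]
  rw [Finset.prod_mul_distrib, Finset.prod_pow_eq_pow_sum, hd, map_mul, map_prod]
  simp only [map_pow]
  rw [mul_assoc]
  rfl

theorem coeff_Phi (g : Fin r → MvPolynomial (Fin m) k) (P : MvPolynomial (Fin r) k) (n : ℕ) :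
    (Phi g P).coeff n = aeval g (homogeneousComponent n P) := by
  have h1 : ∀ i, (Phi g (homogeneousComponent i P)).coeff n =
      if n = i then aeval g (homogeneousComponent i P) else 0 := by
    intro i
    rw [Phi_hom g (homogeneousComponent_isHomogeneous i P), Polynomial.coeff_C_mul,
      Polynomial.coeff_X_pow]
    split_ifs <;> simp
  conv_lhs => rw [← sum_homogeneousComponent P]
  rw [map_sum, Polynomial.finsetSum_coeff]
  simp only [h1]
  rw [Finset.sum_ite_eq]
  by_cases hn : n ∈ Finset.range (P.totalDegree + 1)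
  · rw [if_pos hn]
  · rw [if_neg hn, homogeneousComponent_eq_zero, map_zero]
    rw [Finset.mem_range] at hn
    omega

theorem coeff_mem {I : Ideal (MvPolynomial (Fin m) k)} (g : Fin r → MvPolynomial (Fin m) k)
    (hg : ∀ i, g i ∈ I) (P : MvPolynomial (Fin r) k) (n : ℕ) : (Phi g P).coeff n ∈ I ^ n := by
  have h : Phi g P ∈ reesAlgebra I := by
    induction P using MvPolynomial.induction_on with
    | C a =>
      have : Phi g (C a) = Polynomial.C (C a) := by
        unfold Phi
        rw [aeval_C]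
        rfl
      rw [this]
      exact (reesAlgebra I).algebraMap_mem (C a)
    | add p q hp hq => rw [map_add]; exact add_mem hp hq
    | mul_X p i hp =>
      rw [map_mul]
      refine mul_mem hp ?_
      have : Phi g (X i) = Polynomial.monomial 1 (g i) := by
        unfold Phi
        rw [aeval_X, Polynomial.C_mul_X_eq_monomial]
      rw [this]
      refine reesAlgebra.monomial_mem.mpr ?_
      rw [pow_one]
      exact hg i
  exact (mem_reesAlgebra_iff I _).mp h n

/-- the ideal of the fibre cone -/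
noncomputable def JJ (I : Ideal (MvPolynomial (Fin m) k)) (g : Fin r → MvPolynomial (Fin m) k)
    (hg : ∀ i, g i ∈ I) : Ideal (MvPolynomial (Fin r) k) where
  carrier := {P | ∀ n, (Phi g P).coeff n ∈ mm k m * I ^ n}
  zero_mem' := by
    intro n
    rw [map_zero, Polynomial.coeff_zero]
    exact Ideal.zero_mem _
  add_mem' := by
    intro P Q hP hQ n
    rw [map_add, Polynomial.coeff_add]
    exact Ideal.add_mem _ (hP n) (hQ n)
  smul_mem' := by
    intro Q P hP n
    rw [smul_eq_mul, map_mul, Polynomial.coeff_mul]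
    refine Ideal.sum_mem _ fun x hx' => ?_
    have hx : x.1 + x.2 = n := Finset.HasAntidiagonal.mem_antidiagonal.mp hx'
    have h1 := coeff_mem g hg Q x.1
    have h2 := hP x.2
    have h3 := Ideal.mul_mem_mul h1 h2
    have h4 : I ^ x.1 * (mm k m * I ^ x.2) = mm k m * I ^ n := by
      rw [← hx, pow_add]
      ring
    rw [← h4]
    exact h3

theorem mem_JJ {I : Ideal (MvPolynomial (Fin m) k)} {g : Fin r → MvPolynomial (Fin m) k}
    {hg : ∀ i, g i ∈ I} {P : MvPolynomial (Fin r) k} :
    P ∈ JJ I g hg ↔ ∀ n, (Phi g P).coeff n ∈ mm k m * I ^ n := Iff.rfl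

theorem JJ_hom (I : Ideal (MvPolynomial (Fin m) k)) (g : Fin r → MvPolynomial (Fin m) k)
    (hg : ∀ i, g i ∈ I) : IsHom (JJ I g hg) := by
  intro P hP n
  rw [mem_JJ] at hP ⊢
  intro j
  rw [Phi_hom g (homogeneousComponent_isHomogeneous n P), Polynomial.coeff_C_mul,
    Polynomial.coeff_X_pow]
  split_ifs with h
  · rw [mul_one, ← coeff_Phi, h]
    exact hP n
  · rw [mul_zero]
    exact Ideal.zero_mem _

theorem finrank_range_le {V A B : Type u} [AddCommGroup V] [Module k V] [AddCommGroup A]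
    [Module k A] [AddCommGroup B] [Module k B] [Module.Finite k V] (φ : V →ₗ[k] A) (ψ : V →ₗ[k] B)
    (h : LinearMap.ker ψ ≤ LinearMap.ker φ) :
    finrank k (LinearMap.range φ) ≤ finrank k (LinearMap.range ψ) := by
  have h1 := φ.finrank_range_add_finrank_ker
  have h2 := ψ.finrank_range_add_finrank_ker
  have h3 := Submodule.finrank_mono h
  omega

theorem Hf_le (I : Ideal (MvPolynomial (Fin m) k)) (hI : I ≤ mm k m)
    (g : Fin r → MvPolynomial (Fin m) k) (hg : ∀ i, g i ∈ I) (n : ℕ)
    (hfin : Module.Finite k (MvPolynomial (Fin m) k ⧸ I ^ (n + 1))) :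
    Hf (JJ I g hg) n + finrank k (MvPolynomial (Fin m) k ⧸ I ^ n) ≤
      finrank k (MvPolynomial (Fin m) k ⧸ I ^ (n + 1)) := by
  have hVf : Module.Finite k (homogeneousSubmodule (Fin r) k n) :=
    Module.Finite.iff_fg.2 (homogeneousSubmodule_fg (Fin r) k n)
  let φ : homogeneousSubmodule (Fin r) k n →ₗ[k] (MvPolynomial (Fin r) k ⧸ JJ I g hg) :=
    (Ideal.Quotient.mkₐ k (JJ I g hg)).toLinearMap ∘ₗ (homogeneousSubmodule (Fin r) k n).subtype
  let ψ : homogeneousSubmodule (Fin r) k n →ₗ[k] (MvPolynomial (Fin m) k ⧸ I ^ (n + 1)) :=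
    (Ideal.Quotient.mkₐ k (I ^ (n + 1))).toLinearMap ∘ₗ
      ((aeval g : MvPolynomial (Fin r) k →ₐ[k] MvPolynomial (Fin m) k).toLinearMap ∘ₗ
        (homogeneousSubmodule (Fin r) k n).subtype)
  have hker : LinearMap.ker ψ ≤ LinearMap.ker φ := by
    rintro ⟨P, hP⟩ h
    rw [mem_homogeneousSubmodule] at hP
    rw [LinearMap.mem_ker] at h ⊢
    have h1 : aeval g P ∈ I ^ (n + 1) := Ideal.Quotient.eq_zero_iff_mem.mp h
    refine Ideal.Quotient.eq_zero_iff_mem.mpr ?_
    show P ∈ JJ I g hg
    rw [mem_JJ]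
    intro j
    rw [Phi_hom g hP, Polynomial.coeff_C_mul, Polynomial.coeff_X_pow]
    split_ifs with hj
    · rw [mul_one, hj]
      rw [pow_succ'] at h1
      exact Ideal.mul_mono_left hI h1
    · rw [mul_zero]
      exact Ideal.zero_mem _
  have h1 : Hf (JJ I g hg) n = finrank k (LinearMap.range φ) := by
    unfold Hf
    rw [LinearMap.range_comp, Submodule.range_subtype]
  have h2 := finrank_range_le φ ψ hker
  have hle : I ^ (n + 1) ≤ I ^ n := Ideal.pow_le_pow_right (Nat.le_succ n)
  let π : (MvPolynomial (Fin m) k ⧸ I ^ (n + 1)) →ₗ[k] (MvPolynomial (Fin m) k ⧸ I ^ n) :=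
    (Ideal.Quotient.factorₐ k hle).toLinearMap
  have hπ : Function.Surjective π := Ideal.Quotient.factor_surjective hle
  have h3 := π.finrank_range_add_finrank_ker
  rw [LinearMap.range_eq_top.mpr hπ, finrank_top] at h3
  have h4 : LinearMap.range ψ ≤ LinearMap.ker π := by
    rintro _ ⟨⟨P, hP⟩, rfl⟩
    rw [mem_homogeneousSubmodule] at hP
    rw [LinearMap.mem_ker]
    show Ideal.Quotient.mk (I ^ n) (aeval g P) = 0
    rw [Ideal.Quotient.eq_zero_iff_mem]
    have := coeff_mem g hg P n
    rw [Phi_hom g hP, Polynomial.coeff_C_mul, Polynomial.coeff_X_pow, if_pos rfl, mul_one] at this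
    exact this
  have h5 := Submodule.finrank_mono h4
  omega

theorem pow_le_span (I : Ideal (MvPolynomial (Fin m) k)) (g : Fin r → MvPolynomial (Fin m) k)
    (hI : I = Ideal.span (Set.range g)) (n : ℕ) :
    I ^ n ≤ Ideal.span {x | ∃ P : MvPolynomial (Fin r) k, P.IsHomogeneous n ∧ x = aeval g P} := by
  induction n with
  | zero =>
    rw [pow_zero, Ideal.one_eq_top, top_le_iff, Ideal.eq_top_iff_one]
    exact Ideal.subset_span ⟨1, isHomogeneous_one _ _, by simp⟩
  | succ n ih =>
    rw [pow_succ]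
    refine le_trans (Ideal.mul_mono_left ih) ?_
    conv_lhs => rw [hI]
    rw [Ideal.span_mul_span']
    refine Ideal.span_le.mpr ?_
    rintro _ ⟨_, ⟨P, hP, rfl⟩, _, ⟨i, rfl⟩, rfl⟩
    exact Ideal.subset_span ⟨P * X i, hP.mul (isHomogeneous_X k i), by simp⟩

end red

theorem pf_RED (hM : T_MON.{u}) (hG : T_GNN.{u}) : T_RED.{u} := by
  intro k _ _ m I hI
  by_cases htop : I = ⊤
  · refine ⟨fun _ => 0, 0, fun j => Ideal.zero_mem _, ?_⟩
    have h0 : (⊤ : Ideal (MvPolynomial (Fin m) k)) ^ (0 + 2) = ⊤ := Ideal.top_pow _ _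
    rw [htop, h0, sup_top_eq]
    exact le_top
  obtain ⟨s, hs⟩ := hI
  have hs' : mm k m ^ s ≤ I := hs
  have hle := le_mm hs' htop
  have hfs := (hM k m (mm k m) s finite_mm).1
  have hfI : Module.Finite k (MvPolynomial (Fin m) k ⧸ I) :=
    Module.Finite.of_surjective (Ideal.Quotient.factorₐ k hs').toLinearMap
      (Ideal.Quotient.factor_surjective hs')
  obtain ⟨r, g, hgI⟩ : ∃ (r : ℕ) (g : Fin r → MvPolynomial (Fin m) k),
      I = Ideal.span (Set.range g) := by
    obtain ⟨r, g, hg⟩ := Submodule.fg_iff_exists_fin_generating_family.mp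
      (IsNoetherian.noetherian I)
    exact ⟨r, g, hg.symm⟩
  have hg : ∀ i, g i ∈ I := fun i => by rw [hgI]; exact Ideal.subset_span ⟨i, rfl⟩
  have hsum : ∀ n, ∑ i ∈ Finset.range n, Hf (JJ I g hg) i ≤
      finrank k (MvPolynomial (Fin m) k ⧸ I ^ n) := by
    intro n
    induction n with
    | zero => simp
    | succ n ih =>
      rw [Finset.sum_range_succ]
      have := Hf_le I hle g hg n (hM k m I (n + 1) hfI).1
      omega
  obtain ⟨c, n, hc⟩ := hG k r (JJ I g hg) m (finrank k (MvPolynomial (Fin m) k ⧸ I))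
    (JJ_hom I g hg) (fun n => (hsum n).trans (by
      rw [mul_comm]
      exact (hM k m I n hfI).2))
  obtain ⟨f, hfdef⟩ : ∃ f : Fin m → MvPolynomial (Fin m) k, ∀ j, f j = aeval g (lin (c j)) :=
    ⟨_, fun _ => rfl⟩
  have hlin : ∀ j, (lin (c j) : MvPolynomial (Fin r) k).IsHomogeneous 1 := by
    intro j
    unfold lin
    refine IsHomogeneous.sum _ _ _ fun i _ => ?_
    have := (isHomogeneous_C (Fin r) (c j i)).mul (isHomogeneous_X k i)
    rwa [zero_add] at this
  have hf : ∀ j, f j ∈ I := by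
    intro j
    have := coeff_mem g hg (lin (c j)) 1
    rw [Phi_hom g (hlin j), Polynomial.coeff_C_mul, Polynomial.coeff_X_pow, if_pos rfl,
      mul_one, pow_one, ← hfdef] at this
    exact this
  have hcf : ∀ (q : MvPolynomial (Fin r) k) (j : Fin m),
      (Phi g (q * lin (c j))).coeff (n + 1) = f j * (Phi g q).coeff n := by
    intro q j
    rw [map_mul, Phi_hom g (hlin j), pow_one, ← mul_assoc, Polynomial.coeff_mul_X,
      Polynomial.coeff_mul_C, ← hfdef, mul_comm]
  have h1 : I ^ (n + 1) ≤ Ideal.span (Set.range f) * I ^ n ⊔ mm k m * I ^ (n + 1) := by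
    refine (pow_le_span I g hgI (n + 1)).trans (Ideal.span_le.mpr ?_)
    rintro _ ⟨P, hP, rfl⟩
    show aeval g P ∈ Ideal.span (Set.range f) * I ^ n ⊔ mm k m * I ^ (n + 1)
    have h2 := hc P hP
    obtain ⟨P₀, hP₀, Q, hQ, hPQ⟩ := Submodule.mem_sup.mp h2
    obtain ⟨q, hq⟩ := Ideal.mem_span_range_iff_exists_fun.mp hQ
    have h3 : aeval g P = (Phi g P).coeff (n + 1) := by
      rw [Phi_hom g hP, Polynomial.coeff_C_mul, Polynomial.coeff_X_pow, if_pos rfl, mul_one]
    rw [h3, ← hPQ, add_comm P₀ Q, map_add, Polynomial.coeff_add]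
    have h4 : (Phi g P₀).coeff (n + 1) ∈ mm k m * I ^ (n + 1) := mem_JJ.mp hP₀ (n + 1)
    refine Submodule.add_mem_sup ?_ h4
    rw [← hq, map_sum, Polynomial.finsetSum_coeff]
    refine Ideal.sum_mem _ fun j _ => ?_
    rw [hcf]
    exact Ideal.mul_mem_mul (Ideal.subset_span (Set.mem_range_self j)) (coeff_mem g hg _ n)
  have h2 : ∀ t : ℕ, I ^ (n + 1) ≤
      Ideal.span (Set.range f) * I ^ n ⊔ mm k m ^ t * I ^ (n + 1) := by
    intro t
    induction t with
    | zero => rw [pow_zero, one_mul]; exact le_sup_right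
    | succ t ih =>
      refine ih.trans (sup_le le_sup_left ?_)
      calc mm k m ^ t * I ^ (n + 1)
          ≤ mm k m ^ t * (Ideal.span (Set.range f) * I ^ n ⊔ mm k m * I ^ (n + 1)) :=
            Ideal.mul_mono_right h1
        _ = mm k m ^ t * (Ideal.span (Set.range f) * I ^ n) ⊔
            mm k m ^ t * (mm k m * I ^ (n + 1)) := Ideal.mul_sup _ _ _
        _ ≤ _ := by
          refine sup_le_sup Ideal.mul_le_right (le_of_eq ?_)
          rw [pow_succ]
          ring
  refine ⟨f, n, hf, (h2 s).trans (sup_le_sup le_rfl ?_)⟩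
  calc mm k m ^ s * I ^ (n + 1) ≤ I * I ^ (n + 1) := Ideal.mul_mono_left hs'
    _ = I ^ (n + 2) := by ring

end Pool.Agent.H86.DB
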