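import Pool.Agent.H86.DB.Targets

/-!
# Row DISC: differences of functions of polynomial growth
-/

namespace Pool.Agent.H86.DB

theorem disc_step {a b : ℕ → ℕ} {n₀ n₁ j : ℕ} (hb : ∀ n ≥ n₁, b (n + 1) + a n ≤ a (n + 1))
    (h : ∀ t, t.choose j ≤ b (n₀ + t)) :
    ∃ n₂, ∀ t, t.choose (j + 1) ≤ a (n₂ + t) := by
  refine ⟨max n₀ n₁, fun t => ?_⟩
  induction t with
  | zero => simp
  | succ t ih =>
    have h1 := hb (max n₀ n₁ + t) (by omega)
    obtain ⟨r, hr⟩ : ∃ r, max n₀ n₁ + t + 1 = n₀ + (t + r) :=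
      ⟨max n₀ n₁ + 1 - n₀, by omega⟩
    have h2 := h (t + r)
    rw [← hr] at h2
    have h3 : t.choose j ≤ (t + r).choose j := Nat.choose_le_choose j (by omega)
    rw [Nat.choose_succ_succ']
    have h4 : max n₀ n₁ + (t + 1) = max n₀ n₁ + t + 1 := by omega
    rw [h4]
    omega

theorem pf_DISC : T_DISC := by
  intro m C a ha hC n₀
  by_contra hcon
  have hne : ∀ n ≥ n₀, a m n ≠ 0 := fun n hn h => hcon ⟨n, hn, h⟩
  have hkey : ∀ j ≤ m, ∃ N, ∀ t, t.choose j ≤ a (m - j) (N + t) := by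
    intro j
    induction j with
    | zero =>
      intro _
      refine ⟨n₀, fun t => ?_⟩
      rw [Nat.choose_zero_right, Nat.sub_zero]
      exact Nat.one_le_iff_ne_zero.mpr (hne _ (by omega))
    | succ j ih =>
      intro hj
      obtain ⟨N, hN⟩ := ih (by omega)
      obtain ⟨n₁, hn₁⟩ := ha (m - (j + 1)) (by omega)
      have h1 : m - (j + 1) + 1 = m - j := by omega
      rw [h1] at hn₁
      exact disc_step hn₁ hN
  obtain ⟨N, hN⟩ := hkey m le_rfl
  rw [Nat.sub_self] at hN
  -- sum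
  have hsum : ∀ t, t.choose (m + 1) ≤ C * (N + t) ^ m := by
    intro t
    refine le_trans ?_ (hC (N + t))
    rw [Finset.sum_range_add]
    refine le_trans ?_ (Nat.le_add_left _ _)
    have h1 : t.choose (m + 1) = ∑ s ∈ Finset.range t, s.choose m := by
      induction t with
      | zero => simp
      | succ t ih => rw [Finset.sum_range_succ, ← ih, Nat.choose_succ_succ', add_comm]
    rw [h1]
    exact Finset.sum_le_sum fun s _ => hN s
  set K : ℕ := (m + 1).factorial * C * 2 ^ m with hK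
  set s : ℕ := K + N + m + 1 with hs
  have h1 := hsum (m + s)
  have h2 := Nat.pow_sub_le_descFactorial (m + s) (m + 1)
  rw [Nat.descFactorial_eq_factorial_mul_choose] at h2
  have h3 : m + s + 1 - (m + 1) = s := by omega
  rw [h3] at h2
  have h4 : (N + (m + s)) ^ m ≤ (2 * s) ^ m := Nat.pow_le_pow_left (by omega) m
  have h5 : s ^ (m + 1) ≤ K * s ^ m := by
    calc s ^ (m + 1) ≤ (m + 1).factorial * (m + s).choose (m + 1) := h2
      _ ≤ (m + 1).factorial * (C * (N + (m + s)) ^ m) := Nat.mul_le_mul_left _ h1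
      _ ≤ (m + 1).factorial * (C * (2 * s) ^ m) :=
        Nat.mul_le_mul_left _ (Nat.mul_le_mul_left _ h4)
      _ = K * s ^ m := by rw [hK, mul_pow]; ring
  have h6 : 0 < s ^ m := by positivity
  rw [pow_succ, mul_comm] at h5
  have h7 := Nat.le_of_mul_le_mul_right h5 h6
  omega

end Pool.Agent.H86.DB
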