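import Pool.Agent.H86.DB.Fin
import Pool.Agent.H86.DB.DISC
import Pool.Agent.H86.DB.RED
import Pool.Agent.H18.DB.BAS
import Pool.Agent.H18.DB.CARD
import Pool.Agent.H40.DB.CUT
import Pool.Agent.H40.DB.PERT
import Pool.Agent.H68.DB.FAM
import Pool.Agent.H68.DB.QB
import Pool.Agent.H55.DB.GEN
import Pool.Agent.H42.DB.GNN
import Pool.Agent.H42.DB.SMO
import Pool.Agent.H15.DB.INTrow
import Pool.Agent.H54.DB.L1
import Pool.Agent.H60.DB.LALL
import Pool.Agent.H74.DB.LIM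
import Pool.Agent.H69.DB.LOC
import Pool.Agent.H77.DB.MIN
import Pool.Agent.H77.DB.SUPA
import Pool.Agent.H3.DB.MON
import Pool.Agent.H3.DB.STEP
import Pool.Agent.H85.DB.PALL
import Pool.Agent.H90.DB.PE
import Pool.Agent.H41.DB.PTS
import Pool.Agent.H59.DB.REC
import Pool.Agent.H49.DB.SPL
import Pool.Agent.H70.DB.THK
import Pool.Agent.H15.Keep.TangentGrowth

/-!
# The rows together
-/

open TensorProduct Module Filter Topology

namespace Pool.Agent.H86.DB

open Pool.Agent.H12.Defect Pool.Agent.H14.MM Pool.Agent.H15.Defect Pool.Agent.H14.RF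
open Pool.Agent.H15.CX Pool.Agent.H15.ER
open Pool.Agent.H12.TG Pool.Agent.H15.Keep.TangentGrowth

universe u

theorem c_REC : T_REC.{u} := Pool.Agent.H59.DB.pf_REC Pool.Agent.H15.DB.s_INT Pool.Agent.H77.DB.pf_MIN

theorem c_PALL : T_PALL.{u} :=
  Pool.Agent.H85.DB.pf_PALL Pool.Agent.H90.DB.pf_PE Pool.Agent.H77.DB.pf_SUPA c_REC

theorem c_QB : T_QB.{u} := Pool.Agent.H68.DB.pf_QB Pool.Agent.H18.DB.pf_BAS

theorem c_SMO : T_SMO.{u} :=
  Pool.Agent.H42.DB.pf_SMO c_QB Pool.Agent.H18.DB.pf_CARD (Pool.Agent.H41.DB.pf_PTS c_QB)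
    Pool.Agent.H68.DB.pf_FAM

theorem c_LOC : T_LOC.{u} :=
  Pool.Agent.H69.DB.pf_LOC Pool.Agent.H3.DB.pf_MON c_SMO Pool.Agent.H49.DB.pf_SPL
    Pool.Agent.H55.DB.pf_GEN

theorem c_GNN : T_GNN.{u} :=
  Pool.Agent.H42.DB.pf_GNN Pool.Agent.H3.DB.pf_STEP Pool.Agent.H40.DB.pf_CUT pf_DISC

theorem c_RED : T_RED.{u} := pf_RED Pool.Agent.H3.DB.pf_MON c_GNN

theorem c_L1 : T_L1.{u} :=
  Pool.Agent.H54.DB.pf_L1 Pool.Agent.H3.DB.pf_MON (Pool.Agent.H40.DB.pf_PERT c_RED) c_LOC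
    Pool.Agent.H74.DB.pf_LIM

theorem c_LALL : T_LALL.{u} := Pool.Agent.H60.DB.pf_LALL c_L1

theorem c_THK : T_THK.{u} :=
  Pool.Agent.H70.DB.pf_THK Pool.Agent.H3.DB.pf_MON c_L1

/-- The linear bound, with powers and the limit. -/
theorem lin_part (k : Type u) [Field k] [IsAlgClosed k] (m : ℕ) (A : Type u)
    [CommRing A] [Algebra k A] [Module.Finite k A] (g : MvPolynomial (Fin m) k →ₐ[k] A)
    (hg : Function.Surjective g) :
    (defect k A ≠ ⊤ ∧ finrank k A + (defect k A).toNat ≤ m.factorial * finrank k A) ∧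
    (∀ n : ℕ, defect k (⨂[k] _ : Fin n, A) ≠ ⊤ ∧
      finrank k A ^ n + (defect k (⨂[k] _ : Fin n, A)).toNat ≤ (m.factorial * finrank k A) ^ n) ∧
    (Nontrivial A → ∀ ε : ℝ, (m.factorial : ℝ) < (finrank k A : ℝ) ^ ε →
      Tendsto (growthRatio k A ε) atTop (𝓝 0)) := by
  have h := c_LALL k m A g hg
  refine ⟨⟨(defect_eq h).1, (defect_eq h).2.2⟩, fun n => pow_bound h n, ?_⟩
  intro hA ε hε
  refine tendsto_of_dle h ?_
  have hd : 0 < finrank k A := Module.finrank_pos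
  have hd0 : (0 : ℝ) < finrank k A := by exact_mod_cast hd
  rw [Real.rpow_add hd0, Real.rpow_one]
  push_cast
  rw [mul_comm]
  exact mul_lt_mul_of_pos_left hε hd0

/-- The partition bound, with powers. -/
theorem part_part (k : Type u) [Field k] [IsAlgClosed k] (A : Type u)
    [CommRing A] [Algebra k A] [Module.Finite k A] :
    finrank k A + (defect k A).toNat ≤ Fintype.card (Nat.Partition (finrank k A)) ∧
    ∀ n : ℕ, defect k (⨂[k] _ : Fin n, A) ≠ ⊤ ∧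
      finrank k A ^ n + (defect k (⨂[k] _ : Fin n, A)).toNat ≤
        Fintype.card (Nat.Partition (finrank k A)) ^ n := by
  have h := c_PALL k A
  exact ⟨(defect_eq h).2.2, fun n => pow_bound h n⟩

/-- The lower bound. -/
theorem low_part (k : Type u) [Field k] [IsAlgClosed k] (m : ℕ)
    (I : Ideal (MvPolynomial (Fin m) k)) (hf : Module.Finite k (MvPolynomial (Fin m) k ⧸ I))
    (ht : tangentDim I < m * finrank k (MvPolynomial (Fin m) k ⧸ I)) :
    1 < rate k (MvPolynomial (Fin m) k ⧸ I) ∧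
      ∀ n : ℕ, 1 ≤ n → rate k (MvPolynomial (Fin m) k ⧸ I) ^ (n - 1) ≤
        4 * m * finrank k (MvPolynomial (Fin m) k ⧸ I) *
          (defect k (⨂[k] _ : Fin n, MvPolynomial (Fin m) k ⧸ I)).toNat := by
  have h := Pool.Agent.H15.Keep.TangentGrowth.result k (Fin m) I
    (by rw [Fintype.card_fin]; exact ht)
  refine ⟨h.1, fun n hn => ?_⟩
  have h1 := ((part_part k (MvPolynomial (Fin m) k ⧸ I)).2 n).1
  have h2 := c_PALL k (MvPolynomial (Fin m) k ⧸ I)
  have h3 := (defect_eq (h2.pow n)).2.1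
  have h4 := (h.2 n hn _ h3).2
  rw [Fintype.card_fin] at h4
  exact h4

end Pool.Agent.H86.DB
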