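import Pool.Agent.H86.DB.Targets
import Pool.Agent.H15.CX.Growth

/-!
# From covers to defects
-/

open TensorProduct Module Filter Topology

namespace Pool.Agent.H86.DB

open Pool.Agent.H12.Defect Pool.Agent.H14.MM Pool.Agent.H15.Defect Pool.Agent.H14.RF
open Pool.Agent.H15.CX Pool.Agent.H15.ER

universe u

section bounds

variable {k : Type u} [Field k] {A : Type u} [CommRing A] [Algebra k A]

theorem pow_bound [Module.Finite k A] {N : ℕ} (h : Dle k A N) (n : ℕ) :
    defect k (⨂[k] _ : Fin n, A) ≠ ⊤ ∧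
      finrank k A ^ n + (defect k (⨂[k] _ : Fin n, A)).toNat ≤ N ^ n :=
  ⟨(defect_eq (h.pow n)).1, cdeg_le_of_dle (h.pow n)⟩

theorem tendsto_of_dle [Module.Finite k A] [Nontrivial A] {N : ℕ} (h : Dle k A N) {ε : ℝ}
    (hε : (N : ℝ) < (finrank k A : ℝ) ^ (1 + ε)) : Tendsto (growthRatio k A ε) atTop (𝓝 0) := by
  have hd : 0 < finrank k A := Module.finrank_pos
  have hdN : finrank k A ≤ N := by
    have := (defect_eq h).2.2
    omega
  have hdR : (finrank k A : ℝ) ≤ N := by exact_mod_cast hdN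
  have hd2 : 1 < finrank k A := by
    by_contra hlt
    have h1 : finrank k A = 1 := by omega
    rw [h1, Nat.cast_one, Real.one_rpow] at hε
    rw [h1, Nat.cast_one] at hdR
    linarith
  have hd1 : (1 : ℝ) < finrank k A := by exact_mod_cast hd2
  have hd0 : (0 : ℝ) < finrank k A := by linarith
  have hN0 : (0 : ℝ) < N := by linarith
  have hlog : 0 < Real.log (finrank k A) := Real.log_pos hd1
  set ε₀ : ℝ := Real.log N / Real.log (finrank k A) - 1 with hε₀
  have h1 : (finrank k A : ℝ) ^ (1 + ε₀) = N := by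
    rw [Real.rpow_def_of_pos hd0]
    have h2 : Real.log (finrank k A) * (1 + ε₀) = Real.log N := by
      rw [hε₀]
      field_simp
      ring
    rw [h2, Real.exp_log hN0]
  have h2 : ε₀ < ε := by
    rw [hε₀, sub_lt_iff_lt_add, div_lt_iff₀ hlog, add_comm ε 1, ← Real.log_rpow hd0]
    exact Real.log_lt_log hN0 hε
  have h3 : Bd k A ((finrank k A : ℝ) ^ (1 + ε₀)) := by
    rw [h1]
    exact bd_of_dle h
  exact Bd.tendsto h3 h2

end bounds

theorem choose_ratio (m N : ℕ) :
    Tendsto (fun n : ℕ => (((N + n + m).choose m : ℕ) : ℝ) / (((n + m).choose m : ℕ) : ℝ)) atTop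
      (𝓝 1) := by
  have hasc : ∀ a : ℕ, (((a + m).choose m : ℕ) : ℝ) * (m.factorial : ℝ) =
      ∏ i ∈ Finset.range m, ((a : ℝ) + 1 + i) := by
    intro a
    have h1 := Nat.ascFactorial_eq_factorial_mul_choose a m
    have h2 : ((a + 1).ascFactorial m : ℝ) = ∏ i ∈ Finset.range m, ((a : ℝ) + 1 + i) := by
      rw [Nat.ascFactorial_eq_prod_range]
      push_cast
      rfl
    rw [← h2, h1]
    push_cast
    ring
  have hf : (m.factorial : ℝ) ≠ 0 := by exact_mod_cast m.factorial_ne_zero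
  have hrat : ∀ n : ℕ, (((N + n + m).choose m : ℕ) : ℝ) / (((n + m).choose m : ℕ) : ℝ) =
      ∏ i ∈ Finset.range m, (((N : ℝ) + n + 1 + i) / ((n : ℝ) + 1 + i)) := by
    intro n
    rw [Finset.prod_div_distrib, ← hasc n]
    have h3 := hasc (N + n)
    push_cast at h3
    rw [← h3, mul_div_mul_right _ _ hf]
  simp only [hrat]
  suffices hs : Tendsto (fun n : ℕ => ∏ i ∈ Finset.range m,
      (((N : ℝ) + n + 1 + i) / ((n : ℝ) + 1 + i))) atTop
        (𝓝 (∏ _i ∈ Finset.range m, (1 : ℝ))) by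
    rwa [Finset.prod_const_one] at hs
  refine tendsto_finsetProd _ fun i _ => ?_
  have h4 : ∀ n : ℕ, ((N : ℝ) + n + 1 + i) / ((n : ℝ) + 1 + i) =
      1 + (N : ℝ) / ((n : ℝ) + (1 + i)) := by
    intro n
    have h5 : (n : ℝ) + 1 + i ≠ 0 := by positivity
    have h6 : (n : ℝ) + (1 + i) ≠ 0 := by positivity
    field_simp
    ring
  have h10 : (fun n : ℕ => ((N : ℝ) + n + 1 + i) / ((n : ℝ) + 1 + i)) =
      fun n : ℕ => 1 + (N : ℝ) / ((n : ℝ) + (1 + i)) := funext h4
  rw [h10]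
  have h7 : Tendsto (fun n : ℕ => (n : ℝ) + (1 + i)) atTop atTop :=
    tendsto_atTop_add_const_right _ _ tendsto_natCast_atTop_atTop
  have h8 : Tendsto (fun n : ℕ => (N : ℝ) / ((n : ℝ) + (1 + i))) atTop (𝓝 0) :=
    h7.const_div_atTop _
  have h9 := h8.const_add 1
  rwa [add_zero] at h9

theorem thick (hT : T_THK.{u}) (k : Type u) [Field k] [IsAlgClosed k] (m : ℕ)
    (I : Ideal (MvPolynomial (Fin m) k)) (hf : Module.Finite k (MvPolynomial (Fin m) k ⧸ I))
    (hI : I ≠ ⊤) :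
    Tendsto (fun c : ℕ => ((finrank k (MvPolynomial (Fin m) k ⧸ I ^ c) : ℝ) +
      (defect k (MvPolynomial (Fin m) k ⧸ I ^ c)).toNat) /
        finrank k (MvPolynomial (Fin m) k ⧸ I ^ c)) atTop (𝓝 1) := by
  obtain ⟨e, N, he, h⟩ := hT k m I hf hI
  rw [← tendsto_add_atTop_iff_nat (N + 1)]
  refine tendsto_of_tendsto_of_tendsto_of_le_of_le tendsto_const_nhds (choose_ratio m N) ?_ ?_
  · intro n
    have h1 := (h n).2
    have h2 : 0 < (n + m).choose m := Nat.choose_pos (by omega)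
    have h3 : 0 < finrank k (MvPolynomial (Fin m) k ⧸ I ^ (N + (n + 1))) :=
      lt_of_lt_of_le (Nat.mul_pos he h2) h1
    have h4 : N + (n + 1) = n + (N + 1) := by omega
    rw [h4] at h3
    have h5 : (0 : ℝ) < finrank k (MvPolynomial (Fin m) k ⧸ I ^ (n + (N + 1))) := by
      exact_mod_cast h3
    show (1 : ℝ) ≤ _ / _
    rw [le_div_iff₀ h5, one_mul]
    have : (0 : ℝ) ≤ ((defect k (MvPolynomial (Fin m) k ⧸ I ^ (n + (N + 1)))).toNat : ℝ) :=
      Nat.cast_nonneg _
    linarith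
  · intro n
    have h1 := (h n).2
    have h2 : 0 < (n + m).choose m := Nat.choose_pos (by omega)
    have h4 : N + (n + 1) = n + (N + 1) := by omega
    have h6 := (defect_eq (h (N + n)).1).2.2
    have h7 : N + n + 1 = n + (N + 1) := by omega
    rw [h4] at h1
    rw [h7] at h6
    have h2' : (0 : ℝ) < ((n + m).choose m : ℕ) := by exact_mod_cast h2
    have h1' : (e : ℝ) * ((n + m).choose m : ℕ) ≤
        finrank k (MvPolynomial (Fin m) k ⧸ I ^ (n + (N + 1))) := by exact_mod_cast h1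
    have h6' : (finrank k (MvPolynomial (Fin m) k ⧸ I ^ (n + (N + 1))) : ℝ) +
        (defect k (MvPolynomial (Fin m) k ⧸ I ^ (n + (N + 1)))).toNat ≤
          e * ((N + n + m).choose m : ℕ) := by exact_mod_cast h6
    have he' : (0 : ℝ) < e := by exact_mod_cast he
    have h5 : (0 : ℝ) < finrank k (MvPolynomial (Fin m) k ⧸ I ^ (n + (N + 1))) :=
      lt_of_lt_of_le (by positivity) h1'
    show _ / _ ≤ _ / _
    rw [div_le_div_iff₀ h5 h2']
    have h8 : (0 : ℝ) ≤ ((N + n + m).choose m : ℕ) := Nat.cast_nonneg _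
    calc ((finrank k (MvPolynomial (Fin m) k ⧸ I ^ (n + (N + 1))) : ℝ) +
          (defect k (MvPolynomial (Fin m) k ⧸ I ^ (n + (N + 1)))).toNat) *
            ((n + m).choose m : ℕ)
        ≤ (e * ((N + n + m).choose m : ℕ)) * ((n + m).choose m : ℕ) :=
          mul_le_mul_of_nonneg_right h6' h2'.le
      _ = ((N + n + m).choose m : ℕ) * (e * ((n + m).choose m : ℕ)) := by ring
      _ ≤ ((N + n + m).choose m : ℕ) *
          finrank k (MvPolynomial (Fin m) k ⧸ I ^ (n + (N + 1))) :=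
          mul_le_mul_of_nonneg_left h1' h8

end Pool.Agent.H86.DB
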